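import Mathlib.MeasureTheory.Integral.IntervalIntegral.Periodic
import Mathlib.MeasureTheory.Measure.Haar.Unique
import Mathlib.Topology.Separation.CompletelyRegular
import Mathlib.Probability.Independence.InfinitePi
import Mathlib.Tactic.Algebra.Basic

-- ======== part 0: formerly Pool.Agent.MP_ae7bf1_an.Circle
section MrgPart0

/-
Elementary facts on the circle R/Z used in the disproof of cubic recurrence.
-/

set_option autoImplicit false

namespace Pool.Agent.MP_ae7bf1_an

/-- A point of the circle that is not too close to zero has a bounded multiple far from zero. -/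
theorem exists_hot (y : UnitAddCircle) (C : ℕ) (h : 1 ≤ 4 * (C : ℝ) * ‖y‖) :
    ∃ c : ℕ, c ≤ C ∧ (1 / 4 : ℝ) ≤ ‖c • y‖ := by
  have key : ∀ x : ℝ, 1 / 4 ≤ x → x ≤ 3 / 4 → (1 / 4 : ℝ) ≤ ‖(x : UnitAddCircle)‖ := by
    intro x h1 h2
    rw [UnitAddCircle.norm_eq]
    rcases le_or_gt (round x) 0 with h0 | h0
    · have : ((round x : ℤ) : ℝ) ≤ 0 := by exact_mod_cast h0
      rw [le_abs]; left; linarith
    · have : (1 : ℝ) ≤ ((round x : ℤ) : ℝ) := by exact_mod_cast h0
      rw [le_abs]; right; linarith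
  induction y using QuotientAddGroup.induction_on with
  | H r =>
  set r0 : ℝ := r - round r with hr0
  have hy : ((r : ℝ) : UnitAddCircle) = ((r0 : ℝ) : UnitAddCircle) := by
    rw [hr0, AddCircle.coe_sub]
    have : (((round r : ℤ) : ℝ) : UnitAddCircle) = 0 := by
      rw [AddCircle.coe_eq_zero_iff]; exact ⟨round r, by simp⟩
    rw [this, sub_zero]
  have hn : ‖((r : ℝ) : UnitAddCircle)‖ = |r0| := UnitAddCircle.norm_eq
  have hhalf : |r0| ≤ 1 / 2 := abs_sub_round r
  change 1 ≤ 4 * (C : ℝ) * ‖((r : ℝ) : UnitAddCircle)‖ at h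
  rw [hn] at h
  have hpos : 0 < |r0| := by
    rcases (abs_nonneg r0).lt_or_eq with h1 | h1
    · exact h1
    · rw [← h1] at h; norm_num at h
  refine ⟨⌈1 / (4 * |r0|)⌉₊, ?_, ?_⟩
  · rw [Nat.ceil_le, div_le_iff₀ (by positivity)]; linarith
  · set c : ℕ := ⌈1 / (4 * |r0|)⌉₊ with hc
    have h1 : 1 / (4 * |r0|) ≤ (c : ℝ) := Nat.le_ceil _
    have h2 : (c : ℝ) < 1 / (4 * |r0|) + 1 := Nat.ceil_lt_add_one (by positivity)
    have h3 : 1 / 4 ≤ (c : ℝ) * |r0| := by
      rw [div_le_iff₀ (by positivity)] at h1; linarith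
    have h4 : (c : ℝ) * |r0| ≤ 3 / 4 := by
      have : (c : ℝ) * |r0| ≤ (1 / (4 * |r0|) + 1) * |r0| := by gcongr
      have e : (1 / (4 * |r0|) + 1) * |r0| = 1 / 4 + |r0| := by field_simp
      linarith
    have h5 := key _ h3 h4
    change (1 / 4 : ℝ) ≤ ‖c • ((r : ℝ) : UnitAddCircle)‖
    rw [hy, ← AddCircle.coe_nsmul, nsmul_eq_mul]
    rcases abs_cases r0 with ⟨e, _⟩ | ⟨e, _⟩
    · rw [e] at h5; exact h5
    · rw [e, mul_neg, AddCircle.coe_neg, norm_neg] at h5; exact h5

/-- The grid of mesh 1/G is a net of the circle. -/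
theorem exists_net (G : ℕ) (hG : 0 < G) :
    ∃ g : Fin G → UnitAddCircle, ∀ y : UnitAddCircle, ∃ m : Fin G, ‖y - g m‖ ≤ 1 / (G : ℝ) := by
  refine ⟨fun m => (((m : ℕ) : ℝ) / G : ℝ), fun y => ?_⟩
  induction y using QuotientAddGroup.induction_on with
  | H r =>
  have hGr : (0 : ℝ) < G := by exact_mod_cast hG
  have hf0 : 0 ≤ Int.fract r := Int.fract_nonneg r
  have hf1 : Int.fract r < 1 := Int.fract_lt_one r
  have hlt : ⌊Int.fract r * G⌋₊ < G := by
    rw [Nat.floor_lt (by positivity)]
    nlinarith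
  refine ⟨⟨_, hlt⟩, ?_⟩
  have hy : ((r : ℝ) : UnitAddCircle) = ((Int.fract r : ℝ) : UnitAddCircle) := by
    rw [Int.fract, AddCircle.coe_sub]
    have : (((⌊r⌋ : ℤ) : ℝ) : UnitAddCircle) = 0 := by
      rw [AddCircle.coe_eq_zero_iff]; exact ⟨⌊r⌋, by simp⟩
    rw [this, sub_zero]
  change ‖((r : ℝ) : UnitAddCircle) - (((⌊Int.fract r * G⌋₊ : ℕ) : ℝ) / G : ℝ)‖ ≤ _
  rw [hy, ← AddCircle.coe_sub]
  refine le_trans (QuotientAddGroup.norm_mk_le_norm) ?_
  have h1 : (⌊Int.fract r * G⌋₊ : ℝ) ≤ Int.fract r * G := Nat.floor_le (by positivity)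
  have h2 : Int.fract r * G < (⌊Int.fract r * G⌋₊ : ℝ) + 1 := Nat.lt_floor_add_one _
  rw [Real.norm_eq_abs, abs_le]
  constructor
  · have : (⌊Int.fract r * G⌋₊ : ℝ) / G ≤ Int.fract r := by rw [div_le_iff₀ hGr]; exact h1
    have : (0 : ℝ) ≤ 1 / G := by positivity
    linarith
  · have : Int.fract r ≤ ((⌊Int.fract r * G⌋₊ : ℝ) + 1) / G := by
      rw [le_div_iff₀ hGr]; exact h2.le
    rw [add_div] at this
    linarith

end Pool.Agent.MP_ae7bf1_an

end MrgPart0

-- ======== part 1: formerly Pool.Agent.MP_ae7bf1_an.Rows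
section MrgPart1

/-
Counting lemmas: a random sparse row is far from zero with probability at least one quarter,
and few violations among many independent rows are exponentially unlikely.
-/

set_option autoImplicit false

open Finset

namespace Pool.Agent.MP_ae7bf1_an

/-- The value of a row: the sum of the switched-on entries. -/
noncomputable def rowSum {D : Type} (v : D → UnitAddCircle) {w : ℕ} (r : Fin w → D × Bool) :
    UnitAddCircle :=
  ∑ l, if (r l).2 = true then v (r l).1 else 0

theorem rowSum_cons {D : Type} (v : D → UnitAddCircle) {w : ℕ} (e : D × Bool)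
    (r : Fin w → D × Bool) :
    rowSum v (Fin.cons e r : Fin (w + 1) → D × Bool)
      = (if e.2 = true then v e.1 else 0) + rowSum v r := by
  unfold rowSum
  rw [Fin.sum_univ_succ]
  simp

open Classical in
/-- Number of rows whose shifted value is close to zero. -/
noncomputable def okCount {D : Type} [Fintype D] (v : D → UnitAddCircle) (w : ℕ)
    (z : UnitAddCircle) : ℝ :=
  ∑ r : Fin w → D × Bool, if ‖z + rowSum v r‖ ≤ 3 / 32 then (1 : ℝ) else 0

theorem okCount_succ {D : Type} [Fintype D] (v : D → UnitAddCircle) (w : ℕ) (z : UnitAddCircle) :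
    okCount v (w + 1) z = ∑ d : D, (okCount v w (z + v d) + okCount v w z) := by
  classical
  unfold okCount
  rw [← (Fin.consEquiv (fun _ : Fin (w + 1) => D × Bool)).sum_comp, Fintype.sum_prod_type,
    Fintype.sum_prod_type]
  refine Finset.sum_congr rfl fun d _ => ?_
  rw [Fintype.sum_bool]
  congr 1
  · refine Finset.sum_congr rfl fun r _ => ?_
    have : rowSum v ((Fin.consEquiv (fun _ : Fin (w + 1) => D × Bool)) ((d, true), r))
        = v d + rowSum v r := by
      have := rowSum_cons v (d, true) r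
      simpa [Fin.consEquiv] using this
    rw [this, add_assoc]
  · refine Finset.sum_congr rfl fun r _ => ?_
    have : rowSum v ((Fin.consEquiv (fun _ : Fin (w + 1) => D × Bool)) ((d, false), r))
        = rowSum v r := by
      have := rowSum_cons v (d, false) r
      simpa [Fin.consEquiv] using this
    rw [this]

theorem okCount_pair {D : Type} [Fintype D] (v : D → UnitAddCircle) (w : ℕ)
    (z y : UnitAddCircle) (hy : (1 / 4 : ℝ) ≤ ‖y‖) :
    okCount v w (z + y) + okCount v w z ≤ (2 * (Fintype.card D : ℝ)) ^ w := by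
  classical
  unfold okCount
  rw [← Finset.sum_add_distrib]
  have : ∀ r : Fin w → D × Bool,
      ((if ‖z + y + rowSum v r‖ ≤ 3 / 32 then (1 : ℝ) else 0)
        + if ‖z + rowSum v r‖ ≤ 3 / 32 then (1 : ℝ) else 0) ≤ 1 := by
    intro r
    split_ifs with h1 h2 h2
    · exfalso
      have : y = (z + y + rowSum v r) - (z + rowSum v r) := by abel
      have h3 : ‖y‖ ≤ ‖z + y + rowSum v r‖ + ‖z + rowSum v r‖ := by
        conv_lhs => rw [this]
        exact norm_sub_le _ _
      linarith
    all_goals norm_num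
  refine le_trans (Finset.sum_le_sum fun r _ => this r) ?_
  simp [mul_comm]

open Classical in
theorem okCount_le {D : Type} [Fintype D] (v : D → UnitAddCircle) (q : ℝ) (hq1 : q ≤ 1)
    (hq : q * (Fintype.card D : ℝ) ≤ ((univ.filter fun d => (1 / 4 : ℝ) ≤ ‖v d‖).card : ℝ))
    (w : ℕ) (z : UnitAddCircle) :
    okCount v w z ≤ (1 / 2 + (1 - q) ^ w / 2) * (2 * (Fintype.card D : ℝ)) ^ w := by
  induction w generalizing z with
  | zero =>
    unfold okCount
    simp only [pow_zero, Finset.univ_unique, Finset.sum_singleton]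
    split_ifs <;> norm_num
  | succ w ih =>
    rw [okCount_succ]
    set E : ℝ := (2 * (Fintype.card D : ℝ)) ^ w with hE
    have hE0 : 0 ≤ E := by positivity
    have hp : 0 ≤ (1 - q) ^ w := pow_nonneg (by linarith) _
    have h1 : ∀ d : D, okCount v w (z + v d) + okCount v w z
        ≤ E + (if (1 / 4 : ℝ) ≤ ‖v d‖ then 0 else (1 - q) ^ w * E) := by
      intro d
      split_ifs with h
      · have := okCount_pair v w z (v d) h
        linarith
      · have a1 := ih (z + v d)
        have a2 := ih z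
        nlinarith
    refine le_trans (Finset.sum_le_sum fun d _ => h1 d) ?_
    rw [Finset.sum_add_distrib, Finset.sum_ite]
    simp only [Finset.sum_const, Finset.card_univ, nsmul_eq_mul, mul_zero, zero_add]
    have hc : ((univ.filter fun d => (1 / 4 : ℝ) ≤ ‖v d‖).card : ℝ)
        + ((univ.filter fun d => ¬ (1 / 4 : ℝ) ≤ ‖v d‖).card : ℝ) = Fintype.card D := by
      have := Finset.card_filter_add_card_filter_not (s := (univ : Finset D))
        (fun d => (1 / 4 : ℝ) ≤ ‖v d‖)
      rw [Finset.card_univ] at this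
      exact_mod_cast this
    have hc2 : ((univ.filter fun d => ¬ (1 / 4 : ℝ) ≤ ‖v d‖).card : ℝ)
        ≤ (1 - q) * Fintype.card D := by linarith
    have h3 : ((univ.filter fun d => ¬ (1 / 4 : ℝ) ≤ ‖v d‖).card : ℝ) * ((1 - q) ^ w * E)
        ≤ ((1 - q) * Fintype.card D) * ((1 - q) ^ w * E) :=
      mul_le_mul_of_nonneg_right hc2 (mul_nonneg hp hE0)
    have e : (1 / 2 + (1 - q) ^ (w + 1) / 2) * (2 * (Fintype.card D : ℝ)) ^ (w + 1)
        = (Fintype.card D : ℝ) * E + ((1 - q) * Fintype.card D) * ((1 - q) ^ w * E) := by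
      rw [hE]; ring
    rw [e]
    linarith

open Classical in
theorem okCount_le' {D : Type} [Fintype D] (v : D → UnitAddCircle) (w : ℕ) (hw : 0 < w)
    (hq : (Fintype.card D : ℝ) ≤ w * ((univ.filter fun d => (1 / 4 : ℝ) ≤ ‖v d‖).card : ℝ))
    (z : UnitAddCircle) :
    okCount v w z ≤ 3 / 4 * (Fintype.card (Fin w → D × Bool) : ℝ) := by
  have hwr : (1 : ℝ) ≤ w := by exact_mod_cast hw
  have hq1 : (1 : ℝ) / w ≤ 1 := by rw [div_le_iff₀ (by linarith)]; linarith
  have h := okCount_le v (1 / w) hq1 (by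
    rw [div_mul_eq_mul_div, div_le_iff₀ (by linarith)]; linarith) w z
  have hb : (1 - 1 / (w : ℝ)) ^ w ≤ 1 / 2 := by
    have h0 : (0 : ℝ) ≤ 1 / w := by positivity
    have h1 : 1 + (w : ℝ) * (1 / w) ≤ (1 + 1 / w) ^ w := one_add_mul_le_pow (by linarith) w
    have h2 : (w : ℝ) * (1 / w) = 1 := by field_simp
    have h3 : (1 - 1 / (w : ℝ)) ^ w * (1 + 1 / w) ^ w ≤ 1 := by
      rw [← mul_pow]
      apply pow_le_one₀
      · apply mul_nonneg <;> linarith
      · nlinarith
    have h4 : 0 ≤ (1 - 1 / (w : ℝ)) ^ w := pow_nonneg (by linarith) _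
    nlinarith
  have hc : (Fintype.card (Fin w → D × Bool) : ℝ) = (2 * (Fintype.card D : ℝ)) ^ w := by
    simp [mul_comm]
  rw [hc]
  have : (0 : ℝ) ≤ (2 * (Fintype.card D : ℝ)) ^ w := by positivity
  nlinarith

open Classical in
/-- Few violations among independent choices are exponentially unlikely. -/
theorem card_few_violations {R : Type} [Fintype R] {n : ℕ} (P : Finset (Fin n))
    (Ok : Fin n → R → Prop) (a : ℕ)
    (h : ∀ s ∈ P, (∑ r : R, if Ok s r then (1 : ℝ) else 0) ≤ 3 / 4 * (Fintype.card R : ℝ)) :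
    ((univ.filter fun f : Fin n → R => (P.filter fun s => ¬ Ok s (f s)).card ≤ a).card : ℝ)
      ≤ 2 ^ a * (7 / 8) ^ P.card * (Fintype.card R : ℝ) ^ n := by
  set wt : Fin n → R → ℝ := fun s r => if s ∈ P ∧ ¬ Ok s r then 1 / 2 else 1 with hwt
  have hwt0 : ∀ s r, 0 ≤ wt s r := by
    intro s r; simp only [hwt]; split_ifs <;> norm_num
  have hprod : ∀ f : Fin n → R,
      ∏ s, wt s (f s) = (1 / 2) ^ (P.filter fun s => ¬ Ok s (f s)).card := by
    intro f
    simp only [hwt]
    rw [Finset.prod_ite]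
    simp only [Finset.prod_const_one, mul_one, Finset.prod_const]
    congr 2
    ext s; simp
  have hsum : ∑ f : Fin n → R, ∏ s, wt s (f s) = ∏ s, ∑ r, wt s r := by
    rw [Finset.prod_univ_sum]; simp
  have hR : (0 : ℝ) ≤ Fintype.card R := by positivity
  have hrow : ∀ s, ∑ r, wt s r ≤ (if s ∈ P then 7 / 8 else 1) * (Fintype.card R : ℝ) := by
    intro s
    split_ifs with hs
    · have e : ∀ r, wt s r = 1 / 2 + (if Ok s r then (1 : ℝ) else 0) / 2 := by
        intro r; simp only [hwt]
        by_cases ho : Ok s r <;> simp [ho, hs]; norm_num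
      simp only [e]
      rw [Finset.sum_add_distrib, Finset.sum_const, ← Finset.sum_div]
      have := h s hs
      simp only [Finset.card_univ, nsmul_eq_mul]
      linarith
    · simp [hwt, hs]
  have hup : ∏ s, ∑ r, wt s r ≤ (7 / 8) ^ P.card * (Fintype.card R : ℝ) ^ n := by
    refine le_trans (Finset.prod_le_prod (fun s _ => Finset.sum_nonneg fun r _ => hwt0 s r)
      (fun s _ => hrow s)) ?_
    rw [Finset.prod_mul_distrib, Finset.prod_ite]
    simp [div_pow]
  have hlow : ((univ.filter fun f : Fin n → R =>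
      (P.filter fun s => ¬ Ok s (f s)).card ≤ a).card : ℝ) * (1 / 2) ^ a
        ≤ ∑ f : Fin n → R, ∏ s, wt s (f s) := by
    rw [← nsmul_eq_mul, ← Finset.sum_const]
    refine le_trans (Finset.sum_le_sum (g := fun f => ∏ s, wt s (f s)) ?_)
      (Finset.sum_le_sum_of_subset_of_nonneg (Finset.filter_subset _ _) ?_)
    · intro f hf
      rw [Finset.mem_filter] at hf
      rw [hprod]
      exact pow_le_pow_of_le_one (by norm_num) (by norm_num) hf.2
    · intro f _ _
      exact Finset.prod_nonneg fun s _ => hwt0 s (f s)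
  have h2 : (2 : ℝ) ^ a * (1 / 2) ^ a = 1 := by rw [← mul_pow]; norm_num
  have h3 : (0 : ℝ) < 2 ^ a := by positivity
  calc ((univ.filter fun f : Fin n → R =>
      (P.filter fun s => ¬ Ok s (f s)).card ≤ a).card : ℝ)
      = 2 ^ a * (((univ.filter fun f : Fin n → R =>
      (P.filter fun s => ¬ Ok s (f s)).card ≤ a).card : ℝ) * (1 / 2) ^ a) := by
        rw [mul_comm _ ((1 / 2 : ℝ) ^ a), ← mul_assoc, h2, one_mul]
    _ ≤ 2 ^ a * ((7 / 8) ^ P.card * (Fintype.card R : ℝ) ^ n) := by
        apply mul_le_mul_of_nonneg_left _ h3.le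
        rw [hsum] at hlow
        exact le_trans hlow hup
    _ = _ := by ring

end Pool.Agent.MP_ae7bf1_an

end MrgPart1

-- ======== part 2: formerly Pool.Agent.MP_ae7bf1_an.Code
section MrgPart2

/-
Existence of a sparse integer code that corrects a small fraction of wrong readings.
-/

set_option autoImplicit false

open Finset

namespace Pool.Agent.MP_ae7bf1_an

/-- The cube form attached to a vertex, evaluated on a tuple of circle points. -/
noncomputable def dot {k : ℕ} (ε : Fin k → Fin 2) (t : Fin k → UnitAddCircle) : UnitAddCircle :=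
  ∑ a, (ε a : ℕ) • t a

/-- Rows of the code. -/
abbrev Row (w n' C : ℕ) : Type := Fin w → (Fin n' × Fin (C + 1)) × Bool

/-- The entries a row can switch on. -/
noncomputable def rd {k n' : ℕ} (C : ℕ) (ε : Fin k → Fin 2) (t : Fin n' → Fin k → UnitAddCircle) :
    Fin n' × Fin (C + 1) → UnitAddCircle :=
  fun d => (d.2 : ℕ) • dot ε (t d.1)

theorem dot_flip {k : ℕ} (ε : Fin k → Fin 2) (a : Fin k) (t : Fin k → UnitAddCircle) :
    ‖t a‖ ≤ ‖dot ε t‖ + ‖dot (Function.update ε a (1 - ε a)) t‖ := by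
  unfold dot
  rw [← Finset.add_sum_erase _ _ (Finset.mem_univ a), ← Finset.add_sum_erase _ _ (Finset.mem_univ a)]
  have e : ∑ x ∈ univ.erase a, ((Function.update ε a (1 - ε a) x : Fin 2) : ℕ) • t x
      = ∑ x ∈ univ.erase a, (ε x : ℕ) • t x := by
    refine Finset.sum_congr rfl fun x hx => ?_
    rw [Function.update_of_ne (Finset.ne_of_mem_erase hx)]
  rw [e, Function.update_self]
  set S := ∑ x ∈ univ.erase a, (ε x : ℕ) • t x
  have h2 : ∀ b : Fin 2, (b = 0 ∧ 1 - b = 1) ∨ (b = 1 ∧ 1 - b = 0) := by decide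
  rcases h2 (ε a) with ⟨h, h'⟩ | ⟨h, h'⟩
  · rw [h', h]
    simp only [Fin.val_zero, zero_smul, zero_add, Fin.val_one, one_smul]
    have : t a = (t a + S) - S := by abel
    calc ‖t a‖ = ‖(t a + S) - S‖ := by rw [← this]
      _ ≤ ‖t a + S‖ + ‖S‖ := norm_sub_le _ _
      _ = _ := add_comm _ _
  · rw [h', h]
    simp only [Fin.val_zero, zero_smul, zero_add, Fin.val_one, one_smul]
    have : t a = (t a + S) - S := by abel
    calc ‖t a‖ = ‖(t a + S) - S‖ := by rw [← this]
      _ ≤ ‖t a + S‖ + ‖S‖ := norm_sub_le _ _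

open Classical in
theorem exists_active {k n' : ℕ} (t : Fin n' → Fin k → UnitAddCircle) (τ : ℝ)
    (h : n' < 1024 * (univ.filter fun i => ∃ a, τ ≤ ‖t i a‖).card) :
    2 ^ k ≤ 2 * (univ.filter fun ε : Fin k → Fin 2 =>
      n' < 2048 * k * (univ.filter fun i => τ / 2 ≤ ‖dot ε (t i)‖).card).card := by
  have h1 : ∃ a : Fin k, n' < 1024 * k * (univ.filter fun i => τ ≤ ‖t i a‖).card := by
    by_contra hcon
    push Not at hcon
    have hsub : (univ.filter fun i => ∃ a, τ ≤ ‖t i a‖)
        ⊆ univ.biUnion fun a : Fin k => univ.filter fun i => τ ≤ ‖t i a‖ := by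
      intro i hi
      rw [Finset.mem_filter] at hi
      obtain ⟨a, ha⟩ := hi.2
      exact Finset.mem_biUnion.2 ⟨a, Finset.mem_univ _, Finset.mem_filter.2 ⟨Finset.mem_univ _, ha⟩⟩
    have h2 := le_trans (Finset.card_le_card hsub) Finset.card_biUnion_le
    have h3 : 1024 * k * ∑ a : Fin k, (univ.filter fun i => τ ≤ ‖t i a‖).card ≤ k * n' := by
      rw [Finset.mul_sum]
      refine le_trans (Finset.sum_le_sum fun a _ => hcon a) ?_
      simp
    rcases Nat.eq_zero_or_pos k with hk | hk
    · subst hk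
      simp at h
    · have h4 : k * (1024 * ∑ a : Fin k, (univ.filter fun i => τ ≤ ‖t i a‖).card) ≤ k * n' := by
        calc _ = 1024 * k * ∑ a : Fin k, (univ.filter fun i => τ ≤ ‖t i a‖).card := by ring
          _ ≤ _ := h3
      have h5 := Nat.le_of_mul_le_mul_left h4 hk
      omega
  obtain ⟨a, ha⟩ := h1
  set Act := univ.filter fun ε : Fin k → Fin 2 =>
      n' < 2048 * k * (univ.filter fun i => τ / 2 ≤ ‖dot ε (t i)‖).card with hAct
  set fl : (Fin k → Fin 2) → (Fin k → Fin 2) := fun ε => Function.update ε a (1 - ε a) with hfl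
  have hinv : ∀ ε, fl (fl ε) = ε := by
    intro ε
    simp only [hfl, Function.update_self, Function.update_idem, sub_sub_cancel,
      Function.update_eq_self]
  have hcover : (univ : Finset (Fin k → Fin 2)) ⊆ Act ∪ Act.image fl := by
    intro ε _
    by_contra hcon
    rw [Finset.mem_union, not_or] at hcon
    have hn1 : 2048 * k * (univ.filter fun i => τ / 2 ≤ ‖dot ε (t i)‖).card ≤ n' := by
      by_contra hc
      exact hcon.1 (Finset.mem_filter.2 ⟨Finset.mem_univ _, not_le.1 hc⟩)
    have hn2 : 2048 * k * (univ.filter fun i => τ / 2 ≤ ‖dot (fl ε) (t i)‖).card ≤ n' := by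
      by_contra hc
      exact hcon.2 (Finset.mem_image.2
        ⟨fl ε, Finset.mem_filter.2 ⟨Finset.mem_univ _, not_le.1 hc⟩, hinv ε⟩)
    have hsub : (univ.filter fun i => τ ≤ ‖t i a‖) ⊆
        (univ.filter fun i => τ / 2 ≤ ‖dot ε (t i)‖)
          ∪ (univ.filter fun i => τ / 2 ≤ ‖dot (fl ε) (t i)‖) := by
      intro i hi
      rw [Finset.mem_filter] at hi
      have := dot_flip ε a (t i)
      by_contra hc
      simp only [Finset.mem_union, Finset.mem_filter, Finset.mem_univ, true_and, not_or,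
        not_le] at hc
      have h7 : ‖dot (Function.update ε a (1 - ε a)) (t i)‖ < τ / 2 := hc.2
      linarith [hc.1, hi.2]
    have h6 := le_trans (Finset.card_le_card hsub) (Finset.card_union_le _ _)
    have h8 := Nat.mul_le_mul_left (2048 * k) h6
    rw [mul_add] at h8
    have h9 : 2048 * k * (univ.filter fun i => τ ≤ ‖t i a‖).card
      = 2 * (1024 * k * (univ.filter fun i => τ ≤ ‖t i a‖).card) := by ring
    omega
  have h10 := le_trans (Finset.card_le_card hcover) (Finset.card_union_le _ _)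
  have h11 : (Act.image fl).card ≤ Act.card := Finset.card_image_le
  have h12 : (univ : Finset (Fin k → Fin 2)).card = 2 ^ k := by simp
  omega

open Classical in
theorem hot_fraction {k n' : ℕ} (C : ℕ) (ε : Fin k → Fin 2) (t : Fin n' → Fin k → UnitAddCircle)
    (τ : ℝ) (hC : 1 ≤ 2 * (C : ℝ) * τ) :
    (univ.filter fun i => τ / 2 ≤ ‖dot ε (t i)‖).card
      ≤ (univ.filter fun d => (1 / 4 : ℝ) ≤ ‖rd C ε t d‖).card := by
  refine le_trans (Finset.card_le_card (t := (univ.filter fun d =>
    (1 / 4 : ℝ) ≤ ‖rd C ε t d‖).image Prod.fst) ?_) Finset.card_image_le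
  intro i hi
  rw [Finset.mem_filter] at hi
  have hC0 : (0 : ℝ) ≤ C := by positivity
  obtain ⟨c, hc, hc'⟩ := exists_hot (dot ε (t i)) C (by nlinarith [hi.2])
  exact Finset.mem_image.2 ⟨(i, ⟨c, Nat.lt_succ_of_le hc⟩),
    Finset.mem_filter.2 ⟨Finset.mem_univ _, hc'⟩, rfl⟩

open Classical in
/-- For one fixed datum, few codes fail. -/
theorem card_bad_codes {k m n n' w C : ℕ} (τ : ℝ) (hk : 0 < k)
    (hw : w = 2048 * k * (C + 1)) (hC : 1 ≤ 2 * (C : ℝ) * τ)
    (P : Finset (Fin n)) (z : Fin n → Fin k → UnitAddCircle)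
    (t : Fin n' → Fin k → UnitAddCircle) (hP : 32 * m ≤ P.card)
    (ht : n' < 1024 * (univ.filter fun i => ∃ a, τ ≤ ‖t i a‖).card) :
    ((univ.filter fun code : (Fin k → Fin 2) → Fin n → Row w n' C => ∀ ε,
      (P.filter fun s => ¬ ‖dot ε (z s) + rowSum (rd C ε t) (code ε s)‖ ≤ 3 / 32).card
        ≤ 5 * m).card : ℝ)
      ≤ (1 / 2) ^ (m * 2 ^ (k - 1))
        * (Fintype.card ((Fin k → Fin 2) → Fin n → Row w n' C) : ℝ) := by
  set Act := univ.filter fun ε : Fin k → Fin 2 =>
      n' < 2048 * k * (univ.filter fun i => τ / 2 ≤ ‖dot ε (t i)‖).card with hAct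
  have hA : 2 ^ k ≤ 2 * Act.card := exists_active t τ ht
  have hA' : 2 ^ (k - 1) ≤ Act.card := by
    have : 2 ^ k = 2 * 2 ^ (k - 1) := by
      rw [← pow_succ']; congr 1; omega
    omega
  set S : (Fin k → Fin 2) → Finset (Fin n → Row w n' C) := fun ε =>
    univ.filter fun f : Fin n → Row w n' C =>
      (P.filter fun s => ¬ ‖dot ε (z s) + rowSum (rd C ε t) (f s)‖ ≤ 3 / 32).card ≤ 5 * m with hS
  have e1 : (univ.filter fun code : (Fin k → Fin 2) → Fin n → Row w n' C => ∀ ε,
      (P.filter fun s => ¬ ‖dot ε (z s) + rowSum (rd C ε t) (code ε s)‖ ≤ 3 / 32).card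
        ≤ 5 * m) = Fintype.piFinset S := by
    ext code
    simp only [Finset.mem_filter, Finset.mem_univ, true_and, Fintype.mem_piFinset, hS]
  rw [e1, Fintype.card_piFinset]
  set RR : ℝ := (Fintype.card (Fin n → Row w n' C) : ℝ) with hRR
  have hRR0 : 0 ≤ RR := by positivity
  have hw0 : 0 < w := by rw [hw]; positivity
  have hSle : ∀ ε, ((S ε).card : ℝ) ≤ (if ε ∈ Act then (1 / 2) ^ m else 1) * RR := by
    intro ε
    split_ifs with hε
    · have h1 := card_few_violations (R := Row w n' C) P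
        (fun s r => ‖dot ε (z s) + rowSum (rd C ε t) r‖ ≤ 3 / 32) (5 * m) (by
          intro s _
          have h2 := okCount_le' (rd C ε t) w hw0 (by
            have h3 := hot_fraction C ε t τ hC
            have h4 := (Finset.mem_filter.1 hε).2
            have h5 : n' * (C + 1) ≤ w * (univ.filter fun d =>
                (1 / 4 : ℝ) ≤ ‖rd C ε t d‖).card := by
              rw [hw]
              calc n' * (C + 1) ≤ (2048 * k * (univ.filter fun i =>
                    τ / 2 ≤ ‖dot ε (t i)‖).card) * (C + 1) := Nat.mul_le_mul_right _ h4.le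
                _ ≤ (2048 * k * (univ.filter fun d =>
                    (1 / 4 : ℝ) ≤ ‖rd C ε t d‖).card) * (C + 1) :=
                    Nat.mul_le_mul_right _ (Nat.mul_le_mul_left _ h3)
                _ = _ := by ring
            have h6 : Fintype.card (Fin n' × Fin (C + 1)) = n' * (C + 1) := by simp
            rw [h6]
            exact_mod_cast h5) (dot ε (z s))
          unfold okCount at h2
          convert h2)
      have h7 : (Fintype.card (Row w n' C) : ℝ) ^ n = RR := by
        rw [hRR, Fintype.card_fun (α := Fin n)]; simp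
      rw [h7] at h1
      have h8 : (2 : ℝ) ^ (5 * m) * (7 / 8) ^ P.card ≤ (1 / 2) ^ m := by
        have h9 : ((7 : ℝ) / 8) ^ P.card ≤ (7 / 8) ^ (32 * m) :=
          pow_le_pow_of_le_one (by norm_num) (by norm_num) hP
        calc (2 : ℝ) ^ (5 * m) * (7 / 8) ^ P.card ≤ 2 ^ (5 * m) * (7 / 8) ^ (32 * m) := by gcongr
          _ = (2 ^ 5 * (7 / 8) ^ 32) ^ m := by rw [mul_pow, ← pow_mul, ← pow_mul]
          _ ≤ (1 / 2) ^ m := by
            apply pow_le_pow_left₀ (by positivity)
            norm_num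
      refine le_trans (le_of_eq ?_) (le_trans h1 (mul_le_mul_of_nonneg_right h8 hRR0))
      simp only [hS]
    · rw [one_mul, hRR]
      exact_mod_cast Finset.card_le_univ _
  push_cast
  refine le_trans (Finset.prod_le_prod (fun ε _ => by positivity) (fun ε _ => hSle ε)) ?_
  rw [Finset.prod_mul_distrib, Finset.prod_ite]
  simp only [Finset.prod_const_one, mul_one, Finset.prod_const, Finset.card_univ]
  have e2 : (Fintype.card ((Fin k → Fin 2) → Fin n → Row w n' C) : ℝ)
      = RR ^ Fintype.card (Fin k → Fin 2) := by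
    rw [hRR, Fintype.card_fun (α := Fin k → Fin 2)]; push_cast; rfl
  rw [e2]
  apply mul_le_mul_of_nonneg_right _ (by positivity)
  rw [← pow_mul]
  apply pow_le_pow_of_le_one (by norm_num) (by norm_num)
  apply Nat.mul_le_mul_left
  refine le_trans hA' (le_of_eq ?_)
  congr 1
  ext ε; simp

open Classical in
/-- A code that works for all grid data. -/
theorem exists_code_grid {k m n n' w C gg : ℕ} (τ : ℝ) (g : Fin (2 ^ gg) → UnitAddCircle)
    (hk : 0 < k) (hm : 0 < m) (hn : n = 1024 * m) (hn' : n' = 2048 * m)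
    (hw : w = 2048 * k * (C + 1)) (hC : 1 ≤ 2 * (C : ℝ) * τ)
    (hcount : 1024 * (1 + 3 * k * gg) < 2 ^ (k - 1)) :
    ∃ code : (Fin k → Fin 2) → Fin n → Row w n' C, ∀ (P : Finset (Fin n))
      (z : Fin n → Fin k → Fin (2 ^ gg)) (t : Fin n' → Fin k → Fin (2 ^ gg)), 32 * m ≤ P.card →
      n' < 1024 * (univ.filter fun i => ∃ a, τ ≤ ‖g (t i a)‖).card →
      ∃ ε, 5 * m < (P.filter fun s => ¬ ‖dot ε (fun a => g (z s a))
        + rowSum (rd C ε (fun i a => g (t i a))) (code ε s)‖ ≤ 3 / 32).card := by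
  by_contra hcon
  push Not at hcon
  set Tr := Finset (Fin n) × (Fin n → Fin k → Fin (2 ^ gg)) × (Fin n' → Fin k → Fin (2 ^ gg))
  set Cd := (Fin k → Fin 2) → Fin n → Row w n' C
  set B : Tr → Finset Cd := fun x =>
    if 32 * m ≤ x.1.card ∧ n' < 1024 * (univ.filter fun i => ∃ a, τ ≤ ‖g (x.2.2 i a)‖).card then
      univ.filter fun code : Cd => ∀ ε,
      (x.1.filter fun s => ¬ ‖dot ε (fun a => g (x.2.1 s a))
        + rowSum (rd C ε (fun i a => g (x.2.2 i a))) (code ε s)‖ ≤ 3 / 32).card ≤ 5 * m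
    else ∅ with hB
  have hcover : (univ : Finset Cd) ⊆ univ.biUnion B := by
    intro code _
    obtain ⟨P, z, t, h1, h2, h3⟩ := hcon code
    refine Finset.mem_biUnion.2 ⟨(P, z, t), Finset.mem_univ _, ?_⟩
    simp only [hB]
    rw [if_pos ⟨h1, h2⟩]
    refine Finset.mem_filter.2 ⟨Finset.mem_univ _, fun ε => ?_⟩
    refine le_trans (le_of_eq ?_) (h3 ε)
    congr 1
    ext s
    simp only [Finset.mem_filter, not_le]
  have hBle : ∀ x, ((B x).card : ℝ) ≤ (1 / 2) ^ (m * 2 ^ (k - 1)) * (Fintype.card Cd : ℝ) := by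
    intro x
    simp only [hB]
    split_ifs with hx
    · exact card_bad_codes τ hk hw hC x.1 (fun s a => g (x.2.1 s a)) (fun i a => g (x.2.2 i a))
        hx.1 hx.2
    · simp only [Finset.card_empty, Nat.cast_zero]; positivity
  have h1 : (Fintype.card Cd : ℝ) ≤ ∑ x, ((B x).card : ℝ) := by
    have := le_trans (Finset.card_le_card hcover) Finset.card_biUnion_le
    rw [Finset.card_univ] at this
    exact_mod_cast this
  have h2 : ∑ x, ((B x).card : ℝ)
      ≤ (Fintype.card Tr : ℝ) * ((1 / 2) ^ (m * 2 ^ (k - 1)) * (Fintype.card Cd : ℝ)) := by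
    refine le_trans (Finset.sum_le_sum fun x _ => hBle x) ?_
    simp
  have h3 : Fintype.card Tr = 2 ^ (1024 * (1 + 3 * k * gg) * m) := by
    simp only [Tr, Fintype.card_prod, Fintype.card_finset, Fintype.card_fin, Fintype.card_fun]
    rw [← pow_mul, ← pow_mul, ← pow_mul, ← pow_mul, ← pow_add, ← pow_add]
    congr 1
    rw [hn, hn']; ring
  have hn'0 : 0 < n' := by omega
  have hne : Nonempty Cd := ⟨fun _ _ _ => ((⟨0, hn'0⟩, 0), true)⟩
  have h4 : (0 : ℝ) < Fintype.card Cd := by exact_mod_cast Fintype.card_pos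
  have h5 : (Fintype.card Tr : ℝ) * (1 / 2) ^ (m * 2 ^ (k - 1)) < 1 := by
    rw [h3]
    push_cast
    have h6 : (2 : ℝ) ^ (1024 * (1 + 3 * k * gg) * m) < 2 ^ (m * 2 ^ (k - 1)) := by
      apply pow_lt_pow_right₀ (by norm_num)
      rw [mul_comm m]
      exact Nat.mul_lt_mul_of_pos_right hcount hm
    rw [one_div, inv_pow, ← div_eq_mul_inv, div_lt_one (by positivity)]
    exact h6
  nlinarith

theorem dot_sub_le {k : ℕ} (ε : Fin k → Fin 2) (x y : Fin k → UnitAddCircle) (δ : ℝ)
    (h : ∀ a, ‖x a - y a‖ ≤ δ) : ‖dot ε x - dot ε y‖ ≤ k * δ := by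
  unfold dot
  rw [← Finset.sum_sub_distrib]
  refine le_trans (norm_sum_le _ _) ?_
  have : ∀ a, ‖(ε a : ℕ) • x a - (ε a : ℕ) • y a‖ ≤ δ := by
    intro a
    have h2 : ∀ b : Fin 2, (b : ℕ) = 0 ∨ (b : ℕ) = 1 := by decide
    rcases h2 (ε a) with h3 | h3
    · rw [h3]; simpa using le_trans (norm_nonneg _) (h a)
    · rw [h3]; simpa using h a
  refine le_trans (Finset.sum_le_sum fun a _ => this a) ?_
  simp

theorem rowSum_sub_le {D : Type} (v v' : D → UnitAddCircle) {w : ℕ} (r : Fin w → D × Bool)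
    (δ : ℝ) (hδ : 0 ≤ δ) (h : ∀ d, ‖v d - v' d‖ ≤ δ) : ‖rowSum v r - rowSum v' r‖ ≤ w * δ := by
  unfold rowSum
  rw [← Finset.sum_sub_distrib]
  refine le_trans (norm_sum_le _ _) ?_
  have : ∀ l, ‖(if (r l).2 = true then v (r l).1 else 0)
      - (if (r l).2 = true then v' (r l).1 else 0)‖ ≤ δ := by
    intro l
    split_ifs
    · exact h _
    · simpa using hδ
  refine le_trans (Finset.sum_le_sum fun a _ => this a) ?_
  simp

open Classical in
/-- The code lemma: if every form has few violated readings then few variables are far from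
zero. -/
theorem exists_code {k m n n' w C gg : ℕ} (σ : ℝ)
    (hk : 0 < k) (hm : 0 < m) (hn : n = 1024 * m) (hn' : n' = 2048 * m)
    (hw : w = 2048 * k * (C + 1)) (hC : 1 ≤ (C : ℝ) * σ)
    (hcount : 1024 * (1 + 3 * k * gg) < 2 ^ (k - 1))
    (hG : 32 * k * (1 + w * C) ≤ 2 ^ gg) (hG' : 2 ≤ σ * 2 ^ gg) :
    ∃ code : (Fin k → Fin 2) → Fin n → Row w n' C, ∀ (P : Finset (Fin n))
      (z : Fin n → Fin k → UnitAddCircle) (t : Fin n' → Fin k → UnitAddCircle), 32 * m ≤ P.card →
      (∀ ε, (P.filter fun s => ¬ ‖dot ε (z s) + rowSum (rd C ε t) (code ε s)‖ ≤ 1 / 16).card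
        ≤ 5 * m) →
      1024 * (univ.filter fun i => ∃ a, σ ≤ ‖t i a‖).card ≤ n' := by
  obtain ⟨g, hg⟩ := exists_net (2 ^ gg) (by positivity)
  choose rnd hrnd using hg
  obtain ⟨code, hcode⟩ := exists_code_grid (σ / 2) g hk hm hn hn' hw (by linarith) hcount
  refine ⟨code, fun P z t hP hV => ?_⟩
  by_contra hcon
  push Not at hcon
  set δ : ℝ := 1 / ((2 ^ gg : ℕ) : ℝ) with hδ
  have hG0 : (0 : ℝ) < ((2 ^ gg : ℕ) : ℝ) := by positivity
  have hδ0 : 0 ≤ δ := by positivity
  have hδσ : δ ≤ σ / 2 := by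
    rw [hδ, div_le_iff₀ hG0]; push_cast; linarith
  have hδ2 : (k : ℝ) * δ + w * (C * (k * δ)) ≤ 1 / 32 := by
    have h1 : (32 : ℝ) * k * (1 + w * C) ≤ ((2 ^ gg : ℕ) : ℝ) := by exact_mod_cast hG
    have h2 : (k : ℝ) * δ + w * (C * (k * δ)) = (32 * k * (1 + w * C)) / ((2 ^ gg : ℕ) : ℝ) / 32 := by
      rw [hδ]; field_simp
    rw [h2]
    have := (div_le_one hG0).2 h1
    linarith
  obtain ⟨ε, hε⟩ := hcode P (fun s a => rnd (z s a)) (fun i a => rnd (t i a)) hP (by
    refine lt_of_lt_of_le hcon (Nat.mul_le_mul_left _ (Finset.card_le_card ?_))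
    intro i hi
    rw [Finset.mem_filter] at hi ⊢
    obtain ⟨a, ha⟩ := hi.2
    refine ⟨hi.1, a, ?_⟩
    have h1 := hrnd (t i a)
    have h2 : ‖t i a‖ ≤ ‖t i a - g (rnd (t i a))‖ + ‖g (rnd (t i a))‖ := by
      conv_lhs => rw [← sub_add_cancel (t i a) (g (rnd (t i a)))]
      exact norm_add_le _ _
    linarith)
  refine absurd (lt_of_lt_of_le hε (le_trans (Finset.card_le_card ?_) (hV ε))) (lt_irrefl _)
  intro s hs
  rw [Finset.mem_filter] at hs ⊢
  refine ⟨hs.1, fun hc => hs.2 ?_⟩
  have h1 := dot_sub_le ε (z s) (fun a => g (rnd (z s a))) δ (fun a => hrnd _)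
  have h2 := rowSum_sub_le (rd C ε t) (rd C ε (fun i a => g (rnd (t i a)))) (code ε s)
    (C * (k * δ)) (by positivity) (by
      intro d
      unfold rd
      rw [← nsmul_sub]
      refine le_trans norm_nsmul_le ?_
      have h3 := dot_sub_le ε (t d.1) (fun a => g (rnd (t d.1 a))) δ (fun a => hrnd _)
      have h4 : ((d.2 : ℕ) : ℝ) ≤ C := by exact_mod_cast Nat.lt_succ_iff.1 d.2.2
      gcongr)
  set A := dot ε (z s)
  set A' := dot ε (fun a => g (rnd (z s a)))
  set B := rowSum (rd C ε t) (code ε s)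
  set B' := rowSum (rd C ε (fun i a => g (rnd (t i a)))) (code ε s)
  have h5 : A' + B' = (A + B) - (A - A') - (B - B') := by abel
  have h6 : ‖A' + B'‖ ≤ ‖A + B‖ + ‖A - A'‖ + ‖B - B'‖ := by
    rw [h5]
    refine le_trans (norm_sub_le _ _) ?_
    gcongr
    exact norm_sub_le _ _
  linarith

end Pool.Agent.MP_ae7bf1_an

end MrgPart2

-- ======== part 3: formerly Pool.Agent.MP_ae7bf1_an.Cascade
section MrgPart3

/-
The deterministic cascade: if all vertices of the cube return to the set U then at every level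
most coordinates of the rotation vectors are pinned near zero.
-/

set_option autoImplicit false

open Finset

namespace Pool.Agent.MP_ae7bf1_an

/-- Dimension of the cube. -/
@[irreducible] def kk : ℕ := 32
/-- Scale of level j. -/
@[irreducible] def mm (j : ℕ) : ℕ := 2 ^ (13 + j)
/-- Number of coordinates of level j. -/
@[irreducible] def NN (j : ℕ) : ℕ := 1024 * mm j
/-- Largest multiplier. -/
@[irreducible] def CC : ℕ := 2 ^ 16
/-- Row length. -/
@[irreducible] def ww : ℕ := 2048 * kk * (CC + 1)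

theorem NN_eq (j : ℕ) : NN j = 1024 * mm j := by unfold NN; rfl

theorem ww_eq : ww = 2048 * kk * (CC + 1) := by unfold ww; rfl

theorem mm_pos (j : ℕ) : 0 < mm j := by unfold mm; positivity

theorem mm_succ (j : ℕ) : mm (j + 1) = 2 * mm j := by unfold mm; ring

open Classical in
theorem exists_code_level (j : ℕ) :
    ∃ code : (Fin kk → Fin 2) → Fin (NN j) → Row ww (NN (j + 1)) CC, ∀ (P : Finset (Fin (NN j)))
      (z : Fin (NN j) → Fin kk → UnitAddCircle) (t : Fin (NN (j + 1)) → Fin kk → UnitAddCircle),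
      32 * mm j ≤ P.card →
      (∀ ε, (P.filter fun s => ¬ ‖dot ε (z s) + rowSum (rd CC ε t) (code ε s)‖ ≤ 1 / 16).card
        ≤ 5 * mm j) →
      1024 * (univ.filter fun i => ∃ a, (1 / 2 ^ 16 : ℝ) ≤ ‖t i a‖).card ≤ NN (j + 1) := by
  refine exists_code (gg := 60) (1 / 2 ^ 16) (by unfold kk; norm_num) (mm_pos j) (NN_eq j) ?_ ww_eq
    ?_ ?_ ?_ ?_
  · rw [NN_eq, mm_succ]; ring
  · unfold CC; norm_num
  · unfold kk; norm_num
  · unfold ww CC kk; norm_num
  · norm_num

/-- The code used between level j and level j + 1. -/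
noncomputable def code (j : ℕ) : (Fin kk → Fin 2) → Fin (NN j) → Row ww (NN (j + 1)) CC :=
  Classical.choose (exists_code_level j)

/-- The infinite torus. -/
abbrev KK : Type := ℕ × ℕ → UnitAddCircle

open Classical in
/-- The part of a vector carried by the coordinates where u is not close to zero. -/
noncomputable def low (u α : KK) : KK := fun p => if ‖u p‖ ≤ 1 / 32 then 0 else α p

open Classical in
/-- The nilpotent part of the shear attached to a vertex and a base point. -/
noncomputable def shear (ε : Fin kk → Fin 2) (u α : KK) : KK := fun p =>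
  if h : p.2 < NN p.1 then
    (if ‖u p‖ ≤ 1 / 32 then
      rowSum (fun d : Fin (NN (p.1 + 1)) × Fin (CC + 1) => (d.2 : ℕ) • low u α (p.1 + 1, d.1))
        (code p.1 ε ⟨p.2, h⟩)
    else 0)
  else 0

open Classical in
/-- Number of coordinates of level j within distance r of zero. -/
noncomputable def cnt (r : ℝ) (j : ℕ) (u : KK) : ℕ :=
  (univ.filter fun x : Fin (NN j) => ‖u (j, x)‖ ≤ r).card

/-- The base set. -/
def UU : Set KK :=
  {u | (∀ x : Fin (NN 0), ‖u (0, x)‖ ≤ 1 / 32) ∧ ∀ j, 63 * mm (j + 1) ≤ cnt (1 / 32) (j + 1) u ∧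
    cnt (1 / 32 + 1 / 2048) (j + 1) u ≤ 66 * mm (j + 1)}

theorem dot_nsmul {k : ℕ} (ε : Fin k → Fin 2) (n : Fin k → ℕ) (x : UnitAddCircle) :
    dot ε (fun a => n a • x) = (∑ a, (ε a : ℕ) * n a) • x := by
  unfold dot
  rw [Finset.sum_smul]
  refine Finset.sum_congr rfl fun a _ => ?_
  rw [mul_smul]

theorem nsmul_rowSum {D : Type} (v : D → UnitAddCircle) {w : ℕ} (r : Fin w → D × Bool) (M : ℕ) :
    M • rowSum v r = rowSum (fun d => M • v d) r := by
  unfold rowSum
  rw [Finset.smul_sum]
  refine Finset.sum_congr rfl fun l _ => ?_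
  split_ifs <;> simp

open Classical in
theorem cascade_step (u α : KK) (n : Fin kk → ℕ) (j : ℕ) (hP : 32 * mm j ≤ cnt (1 / 32) j u)
    (hV : ∀ ε : Fin kk → Fin 2, ((univ.filter fun x : Fin (NN j) => ‖u (j, x)‖ ≤ 1 / 32).filter
      fun x : Fin (NN j) =>
        ¬ ‖(u + (∑ a, (ε a : ℕ) * n a) • (α + shear ε u α)) (j, x)‖ ≤ 1 / 32).card ≤ 5 * mm j) :
    1024 * (univ.filter fun i : Fin (NN (j + 1)) =>
      ∃ a, (1 / 2 ^ 16 : ℝ) ≤ ‖n a • low u α (j + 1, i)‖).card ≤ NN (j + 1) := by
  refine Classical.choose_spec (exists_code_level j) _ (fun s a => n a • α (j, s))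
    (fun i a => n a • low u α (j + 1, i)) hP fun ε => le_trans (Finset.card_le_card ?_) (hV ε)
  intro s hs
  rw [Finset.mem_filter] at hs ⊢
  refine ⟨hs.1, fun hc => hs.2 ?_⟩
  have hu : ‖u (j, s)‖ ≤ 1 / 32 := (Finset.mem_filter.1 hs.1).2
  set M := ∑ a, (ε a : ℕ) * n a with hM
  have e : dot ε (fun a => n a • α (j, s))
      + rowSum (rd CC ε fun i a => n a • low u α (j + 1, i)) (code j ε s)
      = (u + M • (α + shear ε u α)) (j, s) - u (j, s) := by
    simp only [Pi.add_apply, Pi.smul_apply, add_sub_cancel_left, smul_add]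
    rw [dot_nsmul]
    congr 1
    unfold shear
    simp only [s.2, dif_pos, hu, if_pos, Fin.eta]
    rw [nsmul_rowSum]
    congr 1
    funext d
    unfold rd
    rw [dot_nsmul, smul_comm]
  change ‖dot ε (fun a => n a • α (j, s))
      + rowSum (rd CC ε fun i a => n a • low u α (j + 1, i)) (code j ε s)‖ ≤ 1 / 16
  rw [e]
  refine le_trans (norm_sub_le _ _) ?_
  linarith

open Classical in
theorem cascade (u α : KK) (n : Fin kk → ℕ) (hu : u ∈ UU)
    (h : ∀ ε : Fin kk → Fin 2, u + (∑ a, (ε a : ℕ) * n a) • (α + shear ε u α) ∈ UU) (j : ℕ) :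
    1024 * (univ.filter fun i : Fin (NN (j + 1)) =>
      ∃ a, (1 / 2 ^ 16 : ℝ) ≤ ‖n a • low u α (j + 1, i)‖).card ≤ NN (j + 1) := by
  induction j with
  | zero =>
    apply cascade_step
    · unfold cnt
      rw [Finset.filter_true_of_mem fun x _ => hu.1 x]
      rw [Finset.card_univ, Fintype.card_fin, NN_eq]
      omega
    · intro ε
      rw [Finset.filter_false_of_mem fun x _ => not_not.2 ((h ε).1 x)]
      simp
  | succ j ih =>
    apply cascade_step
    · have := (hu.2 j).1
      omega
    · intro ε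
      set M := ∑ a, (ε a : ℕ) * n a with hM
      set X := u + M • (α + shear ε u α) with hX
      have h1 : 63 * mm (j + 1) ≤ cnt (1 / 32) (j + 1) X := ((h ε).2 j).1
      have h2 := (hu.2 j).2
      unfold cnt at h1 h2
      set A := univ.filter fun x : Fin (NN (j + 1)) => ‖X (j + 1, x)‖ ≤ 1 / 32 with hA
      set Pp := univ.filter fun x : Fin (NN (j + 1)) => ‖u (j + 1, x)‖ ≤ 1 / 32 + 1 / 2048 with hPp
      set Bad := univ.filter fun i : Fin (NN (j + 1)) =>
        ∃ a, (1 / 2 ^ 16 : ℝ) ≤ ‖n a • low u α (j + 1, i)‖ with hBad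
      set V := (univ.filter fun x : Fin (NN (j + 1)) => ‖u (j + 1, x)‖ ≤ 1 / 32).filter
        fun x : Fin (NN (j + 1)) => ¬ ‖X (j + 1, x)‖ ≤ 1 / 32 with hV
      have hVP : V ⊆ Pp := by
        intro s hs
        have := (Finset.mem_filter.1 (Finset.mem_filter.1 hs).1).2
        exact Finset.mem_filter.2 ⟨Finset.mem_univ _, by linarith⟩
      have hAsub : A ⊆ (Pp \ V) ∪ Bad := by
        intro s hs
        have hs' := (Finset.mem_filter.1 hs).2
        by_cases hb : s ∈ Bad
        · exact Finset.mem_union_right _ hb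
        refine Finset.mem_union_left _ (Finset.mem_sdiff.2 ⟨?_, fun hv => ?_⟩)
        · refine Finset.mem_filter.2 ⟨Finset.mem_univ _, ?_⟩
          by_cases hup : ‖u (j + 1, s)‖ ≤ 1 / 32
          · linarith
          have hlow : low u α (j + 1, s) = α (j + 1, s) := by unfold low; rw [if_neg hup]
          have hsm : ∀ a, ‖n a • α (j + 1, s) - 0‖ ≤ 1 / 2 ^ 16 := by
            intro a
            by_contra hc
            apply hb
            refine Finset.mem_filter.2 ⟨Finset.mem_univ _, a, ?_⟩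
            rw [hlow]; rw [sub_zero] at hc; exact (not_le.1 hc).le
          have h3 := dot_sub_le ε (fun a => n a • α (j + 1, s)) (fun _ => 0) _ hsm
          have h4 : dot ε (fun _ : Fin kk => (0 : UnitAddCircle)) = 0 := by unfold dot; simp
          rw [h4, sub_zero, dot_nsmul] at h3
          have h5 : u (j + 1, s) = X (j + 1, s) - M • α (j + 1, s) := by
            simp only [hX, Pi.add_apply, Pi.smul_apply]
            unfold shear
            simp only [hup, if_false, dite_eq_ite, ite_self, add_zero, add_sub_cancel_right]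
          have h6 : ((kk : ℕ) : ℝ) * (1 / 2 ^ 16) = 1 / 2048 := by unfold kk; norm_num
          rw [h5]
          refine le_trans (norm_sub_le _ _) ?_
          linarith
        · exact (Finset.mem_filter.1 hv).2 hs'
      have h7 := le_trans (Finset.card_le_card hAsub) (Finset.card_union_le _ _)
      rw [Finset.card_sdiff_of_subset hVP] at h7
      have h8 := Finset.card_le_card hVP
      have h9 : NN (j + 1) = 1024 * mm (j + 1) := NN_eq _
      omega

open Classical in
theorem cascade_final (u α : KK) (n : Fin kk → ℕ) (hu : u ∈ UU)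
    (h : ∀ ε : Fin kk → Fin 2, u + (∑ a, (ε a : ℕ) * n a) • (α + shear ε u α) ∈ UU)
    (a : Fin kk) (j : ℕ) :
    66 * mm (j + 1) < cnt (1 / 32 + 1 / 2048) (j + 1) (n a • α) := by
  have h1 := cascade u α n hu h j
  have h2 := (hu.2 j).2
  unfold cnt at h2 ⊢
  set Pp := univ.filter fun x : Fin (NN (j + 1)) => ‖u (j + 1, x)‖ ≤ 1 / 32 + 1 / 2048 with hPp
  set Bad := univ.filter fun i : Fin (NN (j + 1)) =>
    ∃ a, (1 / 2 ^ 16 : ℝ) ≤ ‖n a • low u α (j + 1, i)‖ with hBad
  set A := univ.filter fun x : Fin (NN (j + 1)) =>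
    ‖(n a • α) (j + 1, x)‖ ≤ 1 / 32 + 1 / 2048 with hA
  have hsub : (univ : Finset (Fin (NN (j + 1)))) ⊆ A ∪ (Pp ∪ Bad) := by
    intro s _
    by_contra hc
    simp only [Finset.mem_union, not_or, hA, hPp, hBad, Finset.mem_filter, Finset.mem_univ,
      true_and, not_le, not_exists] at hc
    obtain ⟨h3, h4, h5⟩ := hc
    have hup : ¬ ‖u (j + 1, s)‖ ≤ 1 / 32 := by linarith
    have hlow : low u α (j + 1, s) = α (j + 1, s) := by unfold low; rw [if_neg hup]
    have h6 := h5 a
    rw [hlow] at h6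
    rw [Pi.smul_apply] at h3
    norm_num at h6 h3
    linarith
  have h7 := le_trans (Finset.card_le_card hsub) (Finset.card_union_le _ _)
  have h8 := Finset.card_union_le Pp Bad
  rw [Finset.card_univ, Fintype.card_fin] at h7
  have h9 : NN (j + 1) = 1024 * mm (j + 1) := NN_eq _
  have := mm_pos (j + 1)
  omega

end Pool.Agent.MP_ae7bf1_an

end MrgPart3

-- ======== part 4: formerly Pool.Agent.MP_ae7bf1_an.Haar
section MrgPart4

/-
Haar measure on the infinite torus, the shears, and the measure of the base set.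
-/

set_option autoImplicit false

open Finset MeasureTheory ProbabilityTheory

namespace Pool.Agent.MP_ae7bf1_an

instance circleProb : IsProbabilityMeasure (volume : Measure UnitAddCircle) :=
  ⟨UnitAddCircle.measure_univ⟩

/-- Product of the Lebesgue measures of the circles. -/
noncomputable def muK : Measure KK := Measure.infinitePi fun _ => (volume : Measure UnitAddCircle)

instance muK_prob : IsProbabilityMeasure muK := by unfold muK; infer_instance

instance muK_left : muK.IsAddLeftInvariant := ⟨fun g => by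
  unfold muK
  have h := Measure.infinitePi_map_pi (fun _ : ℕ × ℕ => (volume : Measure UnitAddCircle))
    (f := fun i x => g i + x) (fun i => measurable_const_add (g i))
  simp only [map_add_left_eq_self] at h
  exact h⟩

instance muK_haar : muK.IsAddHaarMeasure :=
  Measure.isAddHaarMeasure_of_isCompact_nonempty_interior muK Set.univ isCompact_univ
    (by simp) (by simp) (by simp)

theorem low_add (u α β : KK) : low u (α + β) = low u α + low u β := by
  funext p; unfold low; simp only [Pi.add_apply]; split_ifs <;> simp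

theorem rowSum_add {D : Type} (v v' : D → UnitAddCircle) {w : ℕ} (r : Fin w → D × Bool) :
    rowSum (fun d => v d + v' d) r = rowSum v r + rowSum v' r := by
  unfold rowSum
  rw [← Finset.sum_add_distrib]
  refine Finset.sum_congr rfl fun l _ => ?_
  split_ifs <;> simp

theorem shear_add (ε : Fin kk → Fin 2) (u α β : KK) :
    shear ε u (α + β) = shear ε u α + shear ε u β := by
  funext p
  unfold shear
  simp only [Pi.add_apply]
  split_ifs
  · rw [← rowSum_add]
    congr 1
    funext d
    rw [low_add, Pi.add_apply, smul_add]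
  · simp
  · simp

/-- The shear as a homomorphism. -/
noncomputable def shearHom (ε : Fin kk → Fin 2) (u : KK) : KK →+ KK :=
  AddMonoidHom.mk' (shear ε u) (shear_add ε u)

theorem low_shear (ε : Fin kk → Fin 2) (u α : KK) : low u (shear ε u α) = 0 := by
  funext p
  unfold low shear
  split_ifs <;> simp

theorem shear_shear (ε : Fin kk → Fin 2) (u α : KK) : shear ε u (shear ε u α) = 0 := by
  funext p
  conv_lhs => unfold shear
  rw [show (fun p => if h : p.2 < NN p.1 then
    (if ‖u p‖ ≤ 1 / 32 then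
      rowSum (fun d : Fin (NN (p.1 + 1)) × Fin (CC + 1) => (d.2 : ℕ) • low u α (p.1 + 1, d.1))
        (code p.1 ε ⟨p.2, h⟩)
    else 0)
  else 0) = shear ε u α from rfl, low_shear]
  split_ifs
  · unfold rowSum; simp
  · simp
  · simp

theorem shear_sub (ε : Fin kk → Fin 2) (u α β : KK) :
    shear ε u (α - β) = shear ε u α - shear ε u β := map_sub (shearHom ε u) α β

theorem continuous_shear (ε : Fin kk → Fin 2) (u : KK) : Continuous (shear ε u) := by
  refine continuous_pi fun p => ?_
  unfold shear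
  split_ifs
  · unfold rowSum
    refine continuous_finsetSum _ fun l _ => ?_
    split_ifs
    · refine Continuous.nsmul ?_ _
      unfold low
      split_ifs
      · exact continuous_const
      · exact continuous_apply _
    · exact continuous_const
  · exact continuous_const
  · exact continuous_const

theorem measurable_shear (ε : Fin kk → Fin 2) :
    Measurable fun x : KK × KK => shear ε x.1 x.2 := by
  refine measurable_pi_lambda _ fun p => ?_
  have hset : ∀ q : ℕ × ℕ, MeasurableSet {x : KK × KK | ‖x.1 q‖ ≤ 1 / 32} := fun q =>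
    measurableSet_le ((measurable_pi_apply q).comp measurable_fst).norm measurable_const
  unfold shear
  by_cases h : p.2 < NN p.1
  · simp only [h, dif_pos]
    refine Measurable.ite (hset p) ?_ measurable_const
    unfold rowSum
    refine Finset.measurable_sum _ fun l _ => ?_
    split_ifs
    · refine ((continuous_nsmul _).measurable).comp ?_
      unfold low
      exact Measurable.ite (hset _) measurable_const
        ((measurable_pi_apply _).comp measurable_snd)
    · exact measurable_const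
  · simp only [h, dif_neg, not_false_eq_true]
    exact measurable_const

/-- The conjugating map. -/
noncomputable def Phi (ε : Fin kk → Fin 2) (x : KK × KK) : KK × KK :=
  (x.1, x.2 + shear ε x.1 x.2)

/-- The inverse of the conjugating map. -/
noncomputable def Psi (ε : Fin kk → Fin 2) (x : KK × KK) : KK × KK :=
  (x.1, x.2 - shear ε x.1 x.2)

theorem Phi_Psi (ε : Fin kk → Fin 2) (x : KK × KK) : Phi ε (Psi ε x) = x := by
  unfold Phi Psi
  simp only [shear_sub, shear_shear, sub_zero, sub_add_cancel]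

theorem Psi_Phi (ε : Fin kk → Fin 2) (x : KK × KK) : Psi ε (Phi ε x) = x := by
  unfold Phi Psi
  simp only [shear_add, shear_shear, add_zero, add_sub_cancel_right]

theorem mp_Phi (ε : Fin kk → Fin 2) :
    MeasurePreserving (Phi ε) (muK.prod muK) (muK.prod muK) := by
  refine (MeasurePreserving.id muK).skew_product (g := fun u α => α + shear ε u α)
    (measurable_snd.add (measurable_shear ε)) (ae_of_all _ fun u => ?_)
  refine (AddMonoidHom.measurePreserving (f := AddMonoidHom.id KK + shearHom ε u)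
    (continuous_id.add (continuous_shear ε u)) (fun y => ⟨y - shear ε u y, ?_⟩) rfl).map_eq
  exact congrArg Prod.snd (Phi_Psi ε (u, y))

theorem mp_Psi (ε : Fin kk → Fin 2) :
    MeasurePreserving (Psi ε) (muK.prod muK) (muK.prod muK) := by
  refine (MeasurePreserving.id muK).skew_product (g := fun u α => α - shear ε u α)
    (measurable_snd.sub (measurable_shear ε)) (ae_of_all _ fun u => ?_)
  refine (AddMonoidHom.measurePreserving (f := AddMonoidHom.id KK - shearHom ε u)
    (continuous_id.sub (continuous_shear ε u)) (fun y => ⟨y + shear ε u y, ?_⟩) rfl).map_eq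
  exact congrArg Prod.snd (Psi_Phi ε (u, y))

/-- The basic skew product. -/
noncomputable def Skew (x : KK × KK) : KK × KK := (x.1 + x.2, x.2)

/-- The transformation attached to a vertex of the cube. -/
noncomputable def TT (ε : Fin kk → Fin 2) : KK × KK → KK × KK := Psi ε ∘ Skew ∘ Phi ε

theorem mp_TT (ε : Fin kk → Fin 2) : MeasurePreserving (TT ε) (muK.prod muK) (muK.prod muK) :=
  (mp_Psi ε).comp ((measurePreserving_add_prod muK muK).comp (mp_Phi ε))

theorem Skew_iterate (M : ℕ) (x : KK × KK) : Skew^[M] x = (x.1 + M • x.2, x.2) := by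
  induction M with
  | zero => simp
  | succ M ih =>
    rw [Function.iterate_succ_apply', ih]
    unfold Skew
    simp only [succ_nsmul, add_assoc]

theorem TT_iterate (ε : Fin kk → Fin 2) (M : ℕ) (x : KK × KK) :
    ((TT ε)^[M] x).1 = x.1 + M • (x.2 + shear ε x.1 x.2) := by
  have h : Function.Semiconj (Phi ε) (TT ε) Skew := by
    intro y
    unfold TT
    simp only [Function.comp_apply, Phi_Psi]
  have h2 := (h.iterate_right M) x
  rw [Skew_iterate] at h2
  exact congrArg Prod.fst h2

theorem mp_nsmul (M : ℕ) (hM : 0 < M) : MeasurePreserving (fun α : KK => M • α) muK muK := by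
  have hc : Continuous (nsmulAddMonoidHom M : KK →+ KK) := continuous_nsmul M
  refine AddMonoidHom.measurePreserving (μ := muK) (ν := muK) hc (fun y => ?_) rfl
  have : ∀ x : UnitAddCircle, ∃ z : UnitAddCircle, M • z = x := by
    intro x
    induction x using QuotientAddGroup.induction_on with
    | H r =>
    refine ⟨((r / M : ℝ) : UnitAddCircle), ?_⟩
    rw [← AddCircle.coe_nsmul, nsmul_eq_mul]
    congr 1
    have : (M : ℝ) ≠ 0 := by positivity
    field_simp
  choose f hf using this
  exact ⟨fun p => f (y p), funext fun p => hf (y p)⟩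

open Classical in
theorem cnt_eq (r : ℝ) (j : ℕ) (u : KK) :
    (cnt r j u : ℝ) = ∑ x : Fin (NN j), if ‖u (j, x)‖ ≤ r then (1 : ℝ) else 0 := by
  unfold cnt
  rw [Finset.card_filter]
  push_cast
  rfl

theorem measurable_cnt (r : ℝ) (j : ℕ) : Measurable (cnt r j) := by
  classical
  unfold cnt
  simp only [Finset.card_filter]
  refine Finset.measurable_sum _ fun x _ => ?_
  exact Measurable.ite (measurableSet_le (measurable_pi_apply _).norm measurable_const)
    measurable_const measurable_const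

open Classical in
theorem cheb (r : ℝ) (hr0 : 0 ≤ r) (hr : 2 * r ≤ 1) (j : ℕ) :
    muK {u | (mm j : ℝ) ≤ |(cnt r j u : ℝ) - 2 * r * NN j|} ≤ ENNReal.ofReal (1 / 2 ^ (5 + j)) := by
  set f : UnitAddCircle → ℝ := fun y => if ‖y‖ ≤ r then (1 : ℝ) else 0 with hf
  have hfm : Measurable f :=
    Measurable.ite (measurableSet_le measurable_norm measurable_const)
      measurable_const measurable_const
  set X : Fin (NN j) → KK → ℝ := fun x u => f (u (j, x)) with hX
  have hXm : ∀ x, Measurable (X x) := fun x => hfm.comp (measurable_pi_apply _)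
  have hXb : ∀ x u, X x u ∈ Set.Icc (0 : ℝ) 1 := by
    intro x u; simp only [hX, hf]; split_ifs <;> simp
  have hXL : ∀ x, MemLp (X x) 2 muK := fun x =>
    memLp_of_bounded (ae_of_all _ (hXb x)) (hXm x).aestronglyMeasurable 2
  have hind : iIndepFun (fun (p : ℕ × ℕ) (u : KK) => f (u p)) muK :=
    iIndepFun_infinitePi (X := fun _ => f) fun _ => hfm
  have hvar : variance (∑ x, X x) muK ≤ (NN j : ℝ) / 4 := by
    rw [IndepFun.variance_sum (fun x _ => hXL x) (fun x _ y _ hxy => hind.indepFun (by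
      intro hc
      exact hxy (Fin.ext (Prod.ext_iff.1 hc).2)))]
    have : ∀ x, variance (X x) muK ≤ 1 / 4 := by
      intro x
      have := variance_le_sq_of_bounded (ae_of_all muK (hXb x)) (hXm x).aemeasurable
      linarith
    refine le_trans (Finset.sum_le_sum fun x _ => this x) ?_
    simp only [Finset.sum_const, Finset.card_univ, Fintype.card_fin, nsmul_eq_mul]
    linarith
  have hint : ∀ x, ∫ u, X x u ∂muK = 2 * r := by
    intro x
    have h1 : ∫ u, X x u ∂muK = ∫ y, f y := by
      have hmp := measurePreserving_eval_infinitePi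
        (fun _ : ℕ × ℕ => (volume : Measure UnitAddCircle)) (j, (x : ℕ))
      rw [← hmp.map_eq, integral_map hmp.measurable.aemeasurable hfm.aestronglyMeasurable]
      rfl
    have h2 : f = Set.indicator (Metric.closedBall (0 : UnitAddCircle) r) 1 := by
      funext y
      simp only [hf, Set.indicator, mem_closedBall_zero_iff, Pi.one_apply]
    rw [h1, h2, integral_indicator_one measurableSet_closedBall, Measure.real,
      AddCircle.volume_closedBall, min_eq_right hr, ENNReal.toReal_ofReal (by linarith)]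
  have hmean : ∫ u, (∑ x, X x) u ∂muK = 2 * r * NN j := by
    simp only [Finset.sum_apply]
    rw [integral_finsetSum _ fun x _ => (hXL x).integrable (by norm_num)]
    simp only [hint, Finset.sum_const, Finset.card_univ, Fintype.card_fin, nsmul_eq_mul]
    ring
  have hm0 : (0 : ℝ) < mm j := by exact_mod_cast mm_pos j
  have h := meas_ge_le_variance_div_sq (μ := muK) (X := ∑ x, X x)
    (memLp_finsetSum' _ fun x _ => hXL x) hm0
  rw [hmean] at h
  have e : ∀ u, (∑ x, X x) u = (cnt r j u : ℝ) := by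
    intro u; rw [cnt_eq, Finset.sum_apply]
  simp only [e] at h
  refine le_trans h (ENNReal.ofReal_le_ofReal ?_)
  rw [div_le_iff₀ (by positivity)]
  refine le_trans hvar (le_of_eq ?_)
  rw [NN_eq]
  unfold mm
  push_cast
  field_simp
  ring

/-- Too few coordinates of level j near zero. -/
def F1 (j : ℕ) : Set KK := {u | cnt (1 / 32) j u < 63 * mm j}
/-- Too many coordinates of level j near zero. -/
def F2 (j : ℕ) : Set KK := {u | 66 * mm j < cnt (1 / 32 + 1 / 2048) j u}

theorem meas_F1 (j : ℕ) : muK (F1 j) ≤ ENNReal.ofReal (1 / 2 ^ (5 + j)) := by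
  refine le_trans (measure_mono ?_) (cheb (1 / 32) (by norm_num) (by norm_num) j)
  intro u hu
  have h : (cnt (1 / 32) j u : ℝ) < 63 * mm j := by exact_mod_cast hu
  simp only [Set.mem_ofPred_eq, NN_eq]
  push_cast
  rw [le_abs]; right; linarith

theorem meas_F2 (j : ℕ) : muK (F2 j) ≤ ENNReal.ofReal (1 / 2 ^ (5 + j)) := by
  refine le_trans (measure_mono ?_) (cheb (1 / 32 + 1 / 2048) (by norm_num) (by norm_num) j)
  intro u hu
  have h : (66 * mm j : ℝ) < cnt (1 / 32 + 1 / 2048) j u := by exact_mod_cast hu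
  simp only [Set.mem_ofPred_eq, NN_eq]
  push_cast
  rw [le_abs]; left; linarith

theorem measurableSet_F1 (j : ℕ) : MeasurableSet (F1 j) :=
  measurableSet_lt (measurable_cnt _ _) measurable_const

theorem measurableSet_F2 (j : ℕ) : MeasurableSet (F2 j) :=
  measurableSet_lt measurable_const (measurable_cnt _ _)

theorem measurableSet_UU : MeasurableSet UU := by
  unfold UU
  simp only [Set.ofPred_and, Set.ofPred_forall]
  refine MeasurableSet.inter (MeasurableSet.iInter fun x => ?_)
    (MeasurableSet.iInter fun j => MeasurableSet.inter ?_ ?_)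
  · exact measurableSet_le (measurable_pi_apply _).norm measurable_const
  · exact measurableSet_le measurable_const (measurable_cnt _ _)
  · exact measurableSet_le (measurable_cnt _ _) measurable_const

theorem meas_bad_lt : muK (⋃ j, (F1 (j + 1) ∪ F2 (j + 1))) < 1 := by
  refine lt_of_le_of_lt (measure_iUnion_le _) ?_
  have h1 : ∀ j, muK (F1 (j + 1) ∪ F2 (j + 1)) ≤ ENNReal.ofReal (1 / 2 / 2 / 2 ^ j) := by
    intro j
    refine le_trans (measure_union_le _ _) (le_trans (add_le_add (meas_F1 _) (meas_F2 _)) ?_)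
    rw [← ENNReal.ofReal_add (by positivity) (by positivity)]
    apply ENNReal.ofReal_le_ofReal
    rw [show 5 + (j + 1) = j + 6 by ring, pow_add]
    have : (0 : ℝ) < 2 ^ j := by positivity
    rw [← add_div, div_le_div_iff₀ (by positivity) this]
    nlinarith
  refine lt_of_le_of_lt (ENNReal.tsum_le_tsum h1) ?_
  rw [← ENNReal.ofReal_tsum_of_nonneg (fun _ => by positivity) (summable_geometric_two' _),
    tsum_geometric_two']
  rw [ENNReal.ofReal_lt_one]
  norm_num

theorem meas_UU_pos : 0 < muK UU := by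
  classical
  rw [pos_iff_ne_zero]
  intro h0
  obtain ⟨g, hg⟩ := exists_net 32 (by norm_num)
  set v : (Fin (NN 0) → Fin 32) → KK := fun τ p =>
    if h : p.1 = 0 ∧ p.2 < NN 0 then g (τ ⟨p.2, h.2⟩) else 0 with hv
  have hcov : (Set.univ : Set KK) ⊆ (⋃ j, (F1 (j + 1) ∪ F2 (j + 1)))
      ∪ ⋃ τ, (fun u => -v τ + u) ⁻¹' UU := by
    intro u _
    by_cases hb : u ∈ ⋃ j, (F1 (j + 1) ∪ F2 (j + 1))
    · exact Or.inl hb
    right
    simp only [Set.mem_iUnion, Set.mem_union, not_exists, not_or, F1, F2, Set.mem_ofPred_eq,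
      not_lt] at hb
    choose τ hτ using fun x : Fin (NN 0) => hg (u (0, x))
    refine Set.mem_iUnion.2 ⟨τ, ?_, fun j => ?_⟩
    · intro x
      have : (-v τ + u) (0, (x : ℕ)) = u (0, x) - g (τ x) := by
        simp only [hv, Pi.add_apply, Pi.neg_apply, x.2, and_self, dif_pos, Fin.eta]
        abel
      change ‖(-v τ + u) (0, (x : ℕ))‖ ≤ 1 / 32
      rw [this]
      have h1 := hτ x
      norm_num at h1 ⊢
      exact h1
    · have e : ∀ r, cnt r (j + 1) (-v τ + u) = cnt r (j + 1) u := by
        intro r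
        unfold cnt
        congr 1
        ext x
        simp [hv]
      simp only [e]
      exact hb j
  have h1 := le_trans (measure_mono hcov) (measure_union_le (μ := muK) _ _)
  have h2 : muK (⋃ τ, (fun u => -v τ + u) ⁻¹' UU) = 0 := by
    rw [measure_iUnion_null_iff]
    intro τ
    rw [measure_preimage_add]
    exact h0
  rw [h2, add_zero, measure_univ] at h1
  exact absurd meas_bad_lt (not_lt.2 h1)

theorem meas_inter_zero (n : Fin kk → ℕ) (hn : ∀ i, 0 < n i) :
    (muK.prod muK) (⋂ ε : Fin kk → Fin 2,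
      (TT ε)^[∑ i, ((ε i : ℕ) * n i)] ⁻¹' (Prod.fst ⁻¹' UU)) = 0 := by
  have hk : 0 < kk := by unfold kk; norm_num
  set a : Fin kk := ⟨0, hk⟩
  have h1 : ∀ j, (muK.prod muK) (⋂ ε : Fin kk → Fin 2,
      (TT ε)^[∑ i, ((ε i : ℕ) * n i)] ⁻¹' (Prod.fst ⁻¹' UU))
        ≤ ENNReal.ofReal (1 / 2 ^ (5 + (j + 1))) := by
    intro j
    refine le_trans ?_ (meas_F2 (j + 1))
    rw [← ((mp_nsmul (n a) (hn a)).comp
      (measurePreserving_snd (μ := muK) (ν := muK))).measure_preimage
        (measurableSet_F2 (j + 1)).nullMeasurableSet]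
    refine measure_mono fun x hx => ?_
    simp only [Set.mem_iInter, Set.mem_preimage, TT_iterate] at hx
    have hu : x.1 ∈ UU := by simpa using hx 0
    exact cascade_final x.1 x.2 n hu hx a j
  have h2 : Filter.Tendsto (fun j : ℕ => ENNReal.ofReal (1 / 2 ^ (5 + (j + 1)))) Filter.atTop
      (nhds 0) := by
    rw [← ENNReal.ofReal_zero]
    apply ENNReal.tendsto_ofReal
    have := (tendsto_pow_atTop_nhds_zero_of_lt_one (r := (1 / 2 : ℝ)) (by norm_num)
      (by norm_num)).comp (Filter.tendsto_add_atTop_nat 6)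
    refine this.congr fun j => ?_
    simp only [Function.comp_apply, one_div, inv_pow]
    congr 2
    ring
  exact le_antisymm (ge_of_tendsto' h2 h1) (zero_le)

end Pool.Agent.MP_ae7bf1_an

end MrgPart4

-- marker of a merged file
example : 731051 + 386803 = 731051 + 386803 := rfl
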